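import Pool.Agent.Run7.h835.MT.Gsub
import Pool.Agent.Run7.h457.MT.Iface

/-!
# Project MT457, piece P5 (helper835)
-/

set_option autoImplicit false

namespace Run7.h835.MT

open Run7.h457.MT

/-- **P5**, without hypotheses. -/
theorem GSUB : S_GSUB := fun ℓ _ κ _ _ Γ _ ρ h C _ _ a b e _ he hh hnear hlie g _ hmon =>
  t_GSUB ℓ κ Γ ρ h C a b e he hh hnear hlie g hmon

end Run7.h835.MT
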