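import Pool.Agent.Run7.h869.HF.Defs

/-!
# Project MT457, corollary H3 (helper835): the conjugate varieties, over finitely generated fields

Let `V` be a family of complex hyperkähler varieties `X t`, defined over the finitely generated subfield
`F` of the field of complex numbers, and `σ` an automorphism of the field of complex numbers. The
conjugate varieties `X t ^ σ` form a family `V'` of hyperkähler varieties defined over the same abstract
field `F`, which is embedded by `σ`. The absolute Galois group of `F` acts on the `ℓ`-adic cohomology of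
both, and transport along the projection `X t ^ σ → X t` is compatible with these actions.
-/

set_option autoImplicit false
set_option linter.unusedSectionVars false

namespace Run7.h835.MT

open Matrix NumberField Pool.Agent.N184.HK Pool.Agent.W401.Cheb Run7.h457.MT Run7.h869.HF

noncomputable section

/-- An isomorphism between the representations of `Γ` given by the matrices `g γ` and `g' γ`: the matrix
`E` and its inverse `E'`. -/
structure Equiv2 {F Γ κ κ' : Type} [Field F] [Fintype κ] [DecidableEq κ] [Fintype κ']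
    [DecidableEq κ'] (g : Γ → Matrix κ κ F) (g' : Γ → Matrix κ' κ' F) where
  E : Matrix κ' κ F
  E' : Matrix κ κ' F
  left : E' * E = 1
  right : E * E' = 1
  comm : ∀ γ, E * g γ = g' γ * E

/-- The `m` vectors `b k` are a basis of the space of all rational vectors with the property `P`. -/
def HasBasis {κ : Type} (P : (κ → ℚ) → Prop) (m : ℕ) : Prop :=
  ∃ b : Fin m → κ → ℚ, LinearIndependent ℚ b ∧ ∀ v, P v ↔ v ∈ Submodule.span ℚ (Set.range b)

/-- The vector `w` is a linear combination with coefficients in `ℚ_ℓ` of rational vectors with the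
property `P`. -/
def InSpanOf {κ : Type} (ℓ : ℕ) [Fact ℓ.Prime] (P : (κ → ℚ) → Prop) (w : κ → ℚ_[ℓ]) : Prop :=
  w ∈ vecSpan ℚ_[ℓ] {v | P v}

section kunD

variable {S : Type} [Fintype S] [DecidableEq S] {F : Type} [Field F]

/-- The degree of the `s`-th factor of the basis element `a` of `H^i` of a product (Künneth
formula). -/
def degK {n : S → ℕ → ℕ} {d : S → ℕ} {i : ℕ} (a : KTot n d i) (s : S) : ℕ := a.1.1 s

/-- The `s`-th factor of the basis element `a` of `H^i` of a product (Künneth formula). -/
def entK {n : S → ℕ → ℕ} {d : S → ℕ} {i : ℕ} (a : KTot n d i) (s : S) : Fin (n s (degK a s)) :=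
  a.2 s

/-- The tensor product of the maps with the matrices `E s j` between the cohomology groups `H^j` of the
factors, as a map between the groups `H^i` of two products (Künneth formula). -/
def kunD {n n' : S → ℕ → ℕ} (d d' : S → ℕ) (E : ∀ s j, Matrix (Fin (n' s j)) (Fin (n s j)) F)
    (i : ℕ) : Matrix (KTot n' d' i) (KTot n d i) F :=
  fun a' a => if h : ∀ s, degK a' s = degK a s then
    ∏ s, E s (degK a s) (Fin.cast (congrArg (n' s) (h s)) (entK a' s)) (entK a s) else 0

end kunD

variable {F : Type} [Field F] {T : Type} [Fintype T] [DecidableEq T]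

/-- The matrix of the action of `γ` on `H^i(X t, ℚ_ℓ)`. -/
def galAt (V : Family F T) (ℓ : ℕ) [Fact ℓ.Prime] (t : T) (i : ℕ) (γ : GK F) :
    Matrix (Fin ((V.X t).B.n i)) (Fin ((V.X t).B.n i)) ℚ_[ℓ] :=
  (V.E ℓ).G t i γ

/-- An isomorphism `w ↦ w_σ` between the representations of the Galois group of `F` on the groups
`H^i(-, ℚ_ℓ)` of `X t` and of the conjugate variety. -/
def Transport (V V' : Family F T) (ℓ : ℕ) [Fact ℓ.Prime] (t : T) (i : ℕ) : Type :=
  Equiv2 (galAt V ℓ t i) (galAt V' ℓ t i)

/-- The matrix of an isomorphism `w ↦ w_σ`. -/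
def Transport.mat {V V' : Family F T} {ℓ : ℕ} [Fact ℓ.Prime] {t : T} {i : ℕ}
    (f : Transport V V' ℓ t i) : Matrix (Fin ((V'.X t).B.n i)) (Fin ((V.X t).B.n i)) ℚ_[ℓ] :=
  Equiv2.E f

/-- The family `V'` consists of the conjugates of the varieties of the family `V` by an automorphism
`σ` of the field of complex numbers: for all primes `ℓ` the isomorphisms `w ↦ w_σ` are given, and the
unit `u ℓ` by which the generator of `ℚ_ℓ(1)` given by `2πi` is multiplied under `w ↦ w_σ`. -/
structure Conjugate (V V' : Family F T) where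
  dim : ∀ t, (V'.X t).d = (V.X t).d
  iso : ∀ (ℓ : ℕ) [Fact ℓ.Prime] t i, Transport V V' ℓ t i
  u : ∀ (ℓ : ℕ) [Fact ℓ.Prime], ℚ_[ℓ]
  hu : ∀ (ℓ : ℕ) [Fact ℓ.Prime], u ℓ ≠ 0

variable {V V' : Family F T} (P : Conjugate V V') {S : Type} [Fintype S] [DecidableEq S]
  (τ : S → T)

/-- The matrix of `w ↦ w_σ` on `H^i(-, ℚ_ℓ)` of the product of the `X (τ s)` (Künneth formula). -/
def Conjugate.mat (ℓ : ℕ) [Fact ℓ.Prime] (i : ℕ) : Matrix (V'.Ix τ i) (V.Ix τ i) ℚ_[ℓ] :=
  kunD (fun s => (V.X (τ s)).d) (fun s => (V'.X (τ s)).d) (fun s j => (P.iso ℓ (τ s) j).mat) i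

/-- The map `w ↦ w_σ` on `H^(2j)(-, ℚ_ℓ(j))` of the product of the `X (τ s)`. -/
def Conjugate.map (ℓ : ℕ) [Fact ℓ.Prime] (j : ℕ) (w : V.Ix τ (2 * j) → ℚ_[ℓ]) :
    V'.Ix τ (2 * j) → ℚ_[ℓ] :=
  P.u ℓ ^ j • (P.mat τ ℓ (2 * j) *ᵥ w)

/-- The rational class `v` on the product of the `X (τ s)` is a Hodge class. -/
def Hodge (V : Family F T) {S : Type} [Fintype S] [DecidableEq S] (τ : S → T) (j : ℕ)
    (v : V.Ix τ (2 * j) → ℚ) : Prop :=
  IsHodge (fun s => V.X (τ s)) j v

/-- The number `m` is the dimension of the space of Hodge classes of degree `2j` on the product of the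
`X (τ s)`: there is a basis with `m` elements. -/
def HodgeDim (V : Family F T) {S : Type} [Fintype S] [DecidableEq S] (τ : S → T) (j m : ℕ) : Prop :=
  HasBasis (Hodge V τ j) m

end

end Run7.h835.MT
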