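import Pool.Agent.Run7.h869.MT.P9
import Pool.Agent.Run7.h475.MT.P13
import Pool.Agent.Run7.h615.MT.P7

/-!
# Project MT457, corollary H3 (helper835): two embeddings
-/

set_option autoImplicit false

namespace Run7.h835.MT

open Matrix Filter Topology
open Run7.h457.MT

noncomputable section

/-- On all products the Tate classes are the span of the Hodge classes. -/
theorem TATE : S_TATE := Run7.h869.MT.tate Run7.h475.MT.LOGEX Run7.h475.MT.LOGFIX
  Run7.h475.MT.INV Run7.h475.MT.SPAN Run7.h615.MT.t_KUN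

section rect

variable {S : Type} [Fintype S] [DecidableEq S] {F : Type} [Field F]

/-- The tensor product of the rectangular matrices `A s`. -/
def kronR {I J : S → Type} (A : ∀ s, Matrix (I s) (J s) F) : Matrix (∀ s, I s) (∀ s, J s) F :=
  fun u v => ∏ s, A s (u s) (v s)

/-- The map between the cohomology groups `H^i` of two products which is the tensor product of the
maps `A s (a_s)` on the summand with the index `(a_s)` of the Künneth decomposition. -/
def kunR {n m : S → ℕ → ℕ} (d : S → ℕ) (i : ℕ)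
    (A : ∀ s j, Matrix (Fin (n s j)) (Fin (m s j)) F) : Matrix (KTot n d i) (KTot m d i) F :=
  Matrix.blockDiagonal' fun a : KIdx d i => kronR fun s => A s (a.1 s)

theorem kronR_mul {I J L : S → Type} [∀ s, Fintype (J s)] (A : ∀ s, Matrix (I s) (J s) F)
    (B : ∀ s, Matrix (J s) (L s) F) : kronR A * kronR B = kronR fun s => A s * B s := by
  ext u v
  rw [Matrix.mul_apply]
  show ∑ w : ∀ s, J s, (∏ s, A s (u s) (w s)) * (∏ s, B s (w s) (v s)) =
    ∏ s, (A s * B s) (u s) (v s)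
  have h1 : ∏ s, (A s * B s) (u s) (v s) = ∏ s, ∑ x, A s (u s) x * B s x (v s) := rfl
  rw [h1, Finset.prod_univ_sum, Fintype.piFinset_univ]
  refine Finset.sum_congr rfl fun w _ => ?_
  rw [← Finset.prod_mul_distrib]

theorem kunR_mul {n m p : S → ℕ → ℕ} (d : S → ℕ) (i : ℕ)
    (A : ∀ s j, Matrix (Fin (n s j)) (Fin (m s j)) F)
    (B : ∀ s j, Matrix (Fin (m s j)) (Fin (p s j)) F) :
    kunR d i A * kunR d i B = kunR d i fun s j => A s j * B s j := by
  unfold kunR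
  rw [← blockDiagonal'_mul]
  congr 1
  funext a
  exact kronR_mul _ _

theorem kunR_congr {n m : S → ℕ → ℕ} (d : S → ℕ) (i : ℕ)
    {A B : ∀ s j, Matrix (Fin (n s j)) (Fin (m s j)) F} (h : ∀ s, ∀ j ≤ d s, A s j = B s j) :
    kunR d i A = kunR d i B := by
  unfold kunR
  congr 1
  funext a
  congr 1
  funext s
  exact h s _ (Nat.lt_succ_iff.1 (a.1 s).2)

theorem kunR_kun {n : S → ℕ → ℕ} (d : S → ℕ) (i : ℕ)
    (A : ∀ s j, Matrix (Fin (n s j)) (Fin (n s j)) F) : kunR d i A = kun d i A := rfl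

theorem kun_one' {n : S → ℕ → ℕ} (d : S → ℕ) (i : ℕ) :
    kun (n := n) d i (fun s j => (1 : Matrix (Fin (n s j)) (Fin (n s j)) F)) = 1 :=
  ((Run7.h615.MT.t_KUN S n d i).1 F (fun _ _ => 1) (fun _ _ => 1)).2.1

end rect

section dim

variable {ι : Type} [Fintype ι]

/-- The rational vectors in the span of rational vectors. -/
theorem rat_mem_vecSpan (F : Type) [Field F] [Algebra ℚ F] (S : Submodule ℚ (ι → ℚ)) (v : ι → ℚ) :
    (fun i => algebraMap ℚ F (v i)) ∈ vecSpan F (S : Set (ι → ℚ)) ↔ v ∈ S := by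
  constructor
  · intro h
    rw [Run7.h475.MT.t_SPANV] at h
    obtain ⟨φ, hφ⟩ : ∃ φ : F →ₗ[ℚ] ℚ, φ 1 = 1 := by
      obtain ⟨φ, h1⟩ : ∃ φ : F →ₗ[ℚ] ℚ, φ 1 ≠ 0 := by
        by_contra hcon
        push Not at hcon
        exact one_ne_zero ((Module.forall_dual_apply_eq_zero_iff ℚ (1 : F)).1 hcon)
      exact ⟨(φ 1)⁻¹ • φ, by simp [h1]⟩
    have h2 := h φ
    have e : (fun i => φ (algebraMap ℚ F (v i))) = v := by
      funext i
      rw [Algebra.algebraMap_eq_smul_one, map_smul, hφ, smul_eq_mul, mul_one]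
    rwa [e] at h2
  · intro h
    exact Submodule.subset_span ⟨v, h, rfl⟩

/-- The dimension of the span. -/
theorem finrank_vecSpan (F : Type) [Field F] [Algebra ℚ F] (S : Submodule ℚ (ι → ℚ)) :
    Module.finrank F (vecSpan F (S : Set (ι → ℚ))) = Module.finrank ℚ S := by
  classical
  let b := Module.finBasis ℚ S
  let w : Fin (Module.finrank ℚ S) → (ι → F) := fun k i => algebraMap ℚ F ((b k : ι → ℚ) i)
  have hli : LinearIndependent F w := by
    rw [Fintype.linearIndependent_iff]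
    intro c hc k
    by_contra hk
    obtain ⟨φ, hφ⟩ : ∃ φ : F →ₗ[ℚ] ℚ, φ (c k) ≠ 0 := by
      by_contra hcon
      push Not at hcon
      exact hk ((Module.forall_dual_apply_eq_zero_iff ℚ (c k)).1 hcon)
    have h1 : ∑ k, φ (c k) • (b k : ι → ℚ) = 0 := by
      funext i
      have h2 := congrFun hc i
      rw [Finset.sum_apply] at h2 ⊢
      have h3 := congrArg φ h2
      rw [Pi.zero_apply, map_zero, map_sum] at h3
      rw [Pi.zero_apply, ← h3]
      refine Finset.sum_congr rfl fun k _ => ?_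
      rw [Pi.smul_apply, Pi.smul_apply, smul_eq_mul, smul_eq_mul]
      show _ = φ (c k * algebraMap ℚ F ((b k : ι → ℚ) i))
      rw [mul_comm (c k), ← Algebra.smul_def, map_smul, smul_eq_mul, mul_comm]
    have h4 : ∑ k, φ (c k) • b k = 0 := by
      apply Subtype.ext
      rw [Submodule.coe_sum]
      simpa using h1
    exact hφ ((Fintype.linearIndependent_iff.1 b.linearIndependent) _ h4 k)
  have hsp : Submodule.span F (Set.range w) = vecSpan F (S : Set (ι → ℚ)) := by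
    apply le_antisymm
    · rw [Submodule.span_le]
      rintro _ ⟨k, rfl⟩
      exact Submodule.subset_span ⟨b k, (b k).2, rfl⟩
    · unfold vecSpan
      rw [Submodule.span_le]
      rintro _ ⟨v, hv, rfl⟩
      have h1 := b.sum_repr ⟨v, hv⟩
      have h2 : v = ∑ k, b.repr ⟨v, hv⟩ k • (b k : ι → ℚ) := by
        have := congrArg Subtype.val h1
        rw [Submodule.coe_sum] at this
        simpa using this.symm
      have h3 : (fun i => algebraMap ℚ F (v i)) = ∑ k, algebraMap ℚ F (b.repr ⟨v, hv⟩ k) • w k := by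
        funext i
        rw [Finset.sum_apply]
        have h4 := congrFun h2 i
        rw [Finset.sum_apply] at h4
        rw [h4, map_sum]
        refine Finset.sum_congr rfl fun k _ => ?_
        rw [Pi.smul_apply, Pi.smul_apply, smul_eq_mul, map_mul, smul_eq_mul]
      simp only
      rw [h3]
      exact Submodule.sum_mem _ fun k _ => Submodule.smul_mem _ _
        (Submodule.subset_span ⟨k, rfl⟩)
  rw [← hsp, finrank_span_eq_card hli, Fintype.card_fin]

end dim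

section hodge

variable {T : Type} [Fintype T] [DecidableEq T] {d : T → ℕ}

/-- The Hodge classes of degree `2 j` (type `(j, j)`) on the product of the `X_(τ s)`. -/
def Hdg (B : ∀ t, LLV (d t)) (W : ∀ t, (B t).Hodge) {S : Type} [Fintype S] [DecidableEq S]
    (τ : S → T) (j : ℕ) :
    Submodule ℚ (KTot (fun s j => (B (τ s)).n j) (fun s => d (τ s)) (2 * j) → ℚ) where
  carrier := {v | dkun (n := fun s j => (B (τ s)).n j) (fun s => d (τ s)) (2 * j)
      (fun s i => ((W (τ s)).V i).D) *ᵥ (fun k => algebraMap ℚ ℂ (v k)) =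
    (j : ℂ) • fun k => algebraMap ℚ ℂ (v k)}
  add_mem' {v w} hv hw := by
    have e : (fun k => algebraMap ℚ ℂ ((v + w) k)) = (fun k => algebraMap ℚ ℂ (v k)) +
        fun k => algebraMap ℚ ℂ (w k) := by
      funext k
      simp
    show _ *ᵥ (fun k => algebraMap ℚ ℂ ((v + w) k)) = (j : ℂ) • fun k => algebraMap ℚ ℂ ((v + w) k)
    rw [e, mulVec_add, smul_add]
    exact congrArg₂ (· + ·) hv hw
  zero_mem' := by
    have e : (fun k => algebraMap ℚ ℂ ((0 : KTot (fun s j => (B (τ s)).n j) (fun s => d (τ s))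
        (2 * j) → ℚ) k)) = 0 := by
      funext k
      simp
    show _ *ᵥ (fun k => algebraMap ℚ ℂ ((0 : KTot (fun s j => (B (τ s)).n j) (fun s => d (τ s))
        (2 * j) → ℚ) k)) = _
    rw [e, mulVec_zero, smul_zero]
  smul_mem' c v hv := by
    have e : (fun k => algebraMap ℚ ℂ ((c • v) k)) = (algebraMap ℚ ℂ c) •
        fun k => algebraMap ℚ ℂ (v k) := by
      funext k
      simp
    show _ *ᵥ (fun k => algebraMap ℚ ℂ ((c • v) k)) = (j : ℂ) • fun k => algebraMap ℚ ℂ ((c • v) k)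
    rw [e, mulVec_smul, smul_comm (j : ℂ)]
    exact congrArg (fun x => (algebraMap ℚ ℂ c) • x) hv

/-- The comparison isomorphisms for the products. -/
def kunE {B B' : ∀ t, LLV (d t)} {F : Type} [Field F]
    (E : ∀ t i, Matrix (Fin ((B' t).n i)) (Fin ((B t).n i)) F)
    {S : Type} [Fintype S] [DecidableEq S] (τ : S → T) (i : ℕ) :
    Matrix (KTot (fun s j => (B' (τ s)).n j) (fun s => d (τ s)) i)
      (KTot (fun s j => (B (τ s)).n j) (fun s => d (τ s)) i) F :=
  kunR (n := fun s j => (B' (τ s)).n j) (m := fun s j => (B (τ s)).n j) (fun s => d (τ s)) i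
    fun s j => E (τ s) j

variable {ℓ : ℕ} [Fact ℓ.Prime] {Γ : Type} [Group Γ] {B B' : ∀ t, LLV (d t)}
  {W : ∀ t, (B t).Hodge} {W' : ∀ t, (B' t).Hodge}
  {G : ∀ t i, Γ →* Matrix (Fin ((B t).n i)) (Fin ((B t).n i)) ℚ_[ℓ]}
  {G' : ∀ t i, Γ →* Matrix (Fin ((B' t).n i)) (Fin ((B' t).n i)) ℚ_[ℓ]}
  {χ : Γ →* ℚ_[ℓ]}
  {E : ∀ t i, Matrix (Fin ((B' t).n i)) (Fin ((B t).n i)) ℚ_[ℓ]}

theorem kunE_rep (hint : ∀ t, ∀ i ≤ d t, ∀ σ, E t i * G t i σ = G' t i σ * E t i)
    {S : Type} [Fintype S] [DecidableEq S] (τ : S → T) (i : ℕ) (σ : Γ) :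
    kunE E τ i * kunRep B G τ i σ = kunRep B' G' τ i σ * kunE E τ i := by
  unfold kunE kunRep
  rw [← kunR_kun, ← kunR_kun, kunR_mul, kunR_mul]
  exact kunR_congr _ _ fun s j hj => hint (τ s) j hj σ

theorem span_map (hd : ∀ t, 2 ≤ d t) (hL : LogRel B G) (hL' : LogRel B' G')
    (hM : MTTwo B W (fun t i σ => G t i σ)) (hM' : MTTwo B' W' (fun t i σ => G' t i σ))
    (hχ : ∀ N : ℕ, ∃ Δ : Subgroup Γ, Δ.FiniteIndex ∧ ∀ σ ∈ Δ, ‖χ σ - 1‖ ≤ ((ℓ : ℝ) ^ N)⁻¹)
    (hq : ∀ t σ, (G t 2 σ)ᵀ * (B t).q.map (algebraMap ℚ ℚ_[ℓ]) * G t 2 σ =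
      (χ σ ^ 2)⁻¹ • (B t).q.map (algebraMap ℚ ℚ_[ℓ]))
    (hq' : ∀ t σ, (G' t 2 σ)ᵀ * (B' t).q.map (algebraMap ℚ ℚ_[ℓ]) * G' t 2 σ =
      (χ σ ^ 2)⁻¹ • (B' t).q.map (algebraMap ℚ ℚ_[ℓ]))
    (hint : ∀ t, ∀ i ≤ d t, ∀ σ, E t i * G t i σ = G' t i σ * E t i)
    {S : Type} [Fintype S] [DecidableEq S] (τ : S → T) (j : ℕ)
    {x : KTot (fun s j => (B (τ s)).n j) (fun s => d (τ s)) (2 * j) → ℚ_[ℓ]}
    (hx : x ∈ vecSpan ℚ_[ℓ] (Hdg B W τ j : Set _)) :
    kunE E τ (2 * j) *ᵥ x ∈ vecSpan ℚ_[ℓ] (Hdg B' W' τ j : Set _) := by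
  obtain ⟨Δ, hΔ, h⟩ := (TATE ℓ Γ T d hd B W G hL hM χ hχ hq S τ j x).2 hx
  refine (TATE ℓ Γ T d hd B' W' G' hL' hM' χ hχ hq' S τ j _).1 ⟨Δ, hΔ, fun σ hσ => ?_⟩
  rw [mulVec_mulVec, ← kunE_rep hint, ← mulVec_mulVec, ← mulVec_smul, h σ hσ]

end hodge

end

end Run7.h835.MT
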