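import Pool.Agent.Run7.h835.MT.AutDefs
import Pool.Agent.Run7.h835.MT.Two
import Pool.Agent.Run7.h869.HF.Tfae

/-!
# Project MT457, corollary H3 (helper835): the conjugate varieties, over finitely generated fields
-/

set_option autoImplicit false
set_option linter.unusedSectionVars false

namespace Run7.h835.MT

open Matrix NumberField Pool.Agent.N184.HK Pool.Agent.W401.Cheb Run7.h457.MT Run7.h869.HF

noncomputable section

section kunD

variable {S : Type} [Fintype S] [DecidableEq S] {F : Type} [Field F]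

theorem kunD_eq {n n' : S → ℕ → ℕ} (d : S → ℕ)
    (E : ∀ s j, Matrix (Fin (n' s j)) (Fin (n s j)) F) (i : ℕ) :
    kunD d d E i = kunR d i E := by
  ext ⟨a', v'⟩ ⟨a, v⟩
  unfold kunR
  rw [Matrix.blockDiagonal'_apply]
  by_cases h : a' = a
  · subst h
    rw [dif_pos rfl]
    show (if h : ∀ s, ((a'.1 s : Fin _) : ℕ) = (a'.1 s : ℕ) then
      ∏ s, E s (a'.1 s) (Fin.cast (congrArg (n' s) (h s)) (v' s)) (v s) else 0) = _
    rw [dif_pos fun s => rfl]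
    rfl
  · rw [dif_neg h]
    show (if h : ∀ s, ((a'.1 s : Fin _) : ℕ) = (a.1 s : ℕ) then
      ∏ s, E s (a.1 s) (Fin.cast (congrArg (n' s) (h s)) (v' s)) (v s) else 0) = _
    rw [dif_neg]
    intro h1
    exact h (Subtype.ext (funext fun s => Fin.ext (h1 s)))

theorem kunD_rep {n n' : S → ℕ → ℕ} {d d' : S → ℕ} (hd : d' = d)
    {E : ∀ s j, Matrix (Fin (n' s j)) (Fin (n s j)) F}
    {A : ∀ s j, Matrix (Fin (n s j)) (Fin (n s j)) F}
    {A' : ∀ s j, Matrix (Fin (n' s j)) (Fin (n' s j)) F}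
    (h : ∀ s j, E s j * A s j = A' s j * E s j) (i : ℕ) :
    kunD d d' E i * kun d i A = kun d' i A' * kunD d d' E i := by
  subst hd
  rw [kunD_eq, ← kunR_kun, ← kunR_kun, kunR_mul, kunR_mul]
  exact kunR_congr _ _ fun s j _ => h s j

theorem kunD_inv {n n' : S → ℕ → ℕ} {d d' : S → ℕ} (hd : d' = d)
    {E : ∀ s j, Matrix (Fin (n' s j)) (Fin (n s j)) F}
    {E' : ∀ s j, Matrix (Fin (n s j)) (Fin (n' s j)) F}
    (h : ∀ s j, E' s j * E s j = 1) (i : ℕ) :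
    kunD d' d E' i * kunD d d' E i = 1 := by
  subst hd
  rw [kunD_eq, kunD_eq, kunR_mul, ← kun_one' (n := n) (F := F) d' i, ← kunR_kun]
  exact kunR_congr _ _ fun s j _ => h s j

end kunD

variable {F : Type} [Field F] {T : Type} [Fintype T] [DecidableEq T] {V V' : Family F T}

/-- The inverse isomorphism. -/
def Equiv2.symm {F Γ κ κ' : Type} [Field F] [Fintype κ] [DecidableEq κ] [Fintype κ']
    [DecidableEq κ'] {g : Γ → Matrix κ κ F} {g' : Γ → Matrix κ' κ' F} (P : Equiv2 g g') :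
    Equiv2 g' g where
  E := P.E'
  E' := P.E
  left := P.right
  right := P.left
  comm γ := by
    have h := P.comm γ
    calc P.E' * g' γ = P.E' * g' γ * (P.E * P.E') := by
          rw [P.right, Matrix.mul_one]
      _ = P.E' * (g' γ * P.E) * P.E' := by
          simp only [Matrix.mul_assoc]
      _ = (P.E' * P.E) * g γ * P.E' := by
          rw [← h]
          simp only [Matrix.mul_assoc]
      _ = _ := by rw [P.left, Matrix.one_mul]

/-- The inverse conjugation. -/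
def Conjugate.symm (P : Conjugate V V') : Conjugate V' V where
  dim t := (P.dim t).symm
  iso ℓ _ t i := Equiv2.symm (P.iso ℓ t i)
  u ℓ _ := (P.u ℓ)⁻¹
  hu ℓ _ := inv_ne_zero (P.hu ℓ)

variable (P : Conjugate V V') {S : Type} [Fintype S] [DecidableEq S] (τ : S → T)

theorem dim_eq' (P : Conjugate V V') {S : Type} (τ : S → T) :
    (fun s => (V'.X (τ s)).d) = fun s => (V.X (τ s)).d :=
  funext fun s => P.dim (τ s)

theorem mat_gal (ℓ : ℕ) [Fact ℓ.Prime] (i : ℕ) (γ : GK F) :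
    P.mat τ ℓ i * V.gal τ ℓ i γ = V'.gal τ ℓ i γ * P.mat τ ℓ i := by
  exact kunD_rep (n := fun s => (V.X (τ s)).B.n) (n' := fun s => (V'.X (τ s)).B.n)
    (dim_eq' P τ) (E := fun s j => (P.iso ℓ (τ s) j).mat) (fun s j => Equiv2.comm (P.iso ℓ (τ s) j) γ) i

theorem mat_inv (ℓ : ℕ) [Fact ℓ.Prime] (i : ℕ) : P.symm.mat τ ℓ i * P.mat τ ℓ i = 1 := by
  exact kunD_inv (n := fun s => (V.X (τ s)).B.n) (n' := fun s => (V'.X (τ s)).B.n)
    (dim_eq' P τ) (E := fun s j => (P.iso ℓ (τ s) j).mat)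
    (E' := fun s j => Equiv2.E' (P.iso ℓ (τ s) j)) (fun s j => Equiv2.left (P.iso ℓ (τ s) j)) i

theorem map_gal (ℓ : ℕ) [Fact ℓ.Prime] (j : ℕ) (γ : GK F) (x : V.Ix τ (2 * j) → ℚ_[ℓ]) :
    P.map τ ℓ j (V.galT τ ℓ j γ *ᵥ x) = V'.galT τ ℓ j γ *ᵥ P.map τ ℓ j x := by
  unfold Conjugate.map Family.galT
  rw [smul_mulVec, mulVec_smul, mulVec_mulVec, mat_gal, mulVec_smul, smul_mulVec, mulVec_mulVec,
    smul_comm]

theorem map_inv (ℓ : ℕ) [Fact ℓ.Prime] (j : ℕ) (x : V.Ix τ (2 * j) → ℚ_[ℓ]) :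
    P.symm.map τ ℓ j (P.map τ ℓ j x) = x := by
  have hu : P.u ℓ ^ j ≠ 0 := pow_ne_zero _ (P.hu ℓ)
  unfold Conjugate.map
  rw [mulVec_smul, mulVec_mulVec, mat_inv, one_mulVec, smul_smul]
  show (((P.u ℓ)⁻¹) ^ j * P.u ℓ ^ j) • x = x
  rw [inv_pow, inv_mul_cancel₀ hu, one_smul]

/-- The transport as a linear map. -/
def Conjugate.mapL (ℓ : ℕ) [Fact ℓ.Prime] (j : ℕ) :
    (V.Ix τ (2 * j) → ℚ_[ℓ]) →ₗ[ℚ_[ℓ]] (V'.Ix τ (2 * j) → ℚ_[ℓ]) where
  toFun := P.map τ ℓ j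
  map_add' x y := by
    unfold Conjugate.map
    rw [mulVec_add, smul_add]
  map_smul' c x := by
    unfold Conjugate.map
    rw [mulVec_smul, smul_comm, RingHom.id_apply]

variable [CharZero F]

/-- The map `w ↦ w_σ` respects Tate classes. -/
theorem map_tate (ℓ : ℕ) [Fact ℓ.Prime] (j : ℕ) {x : V.Ix τ (2 * j) → ℚ_[ℓ]}
    (hx : V.IsTate τ ℓ j x) : V'.IsTate τ ℓ j (P.map τ ℓ j x) := by
  obtain ⟨Δ, hΔ, h⟩ := hx
  refine ⟨Δ, hΔ, fun σ hσ => ?_⟩
  rw [← map_gal, h σ hσ]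

theorem map_span (ℓ : ℕ) [Fact ℓ.Prime] (j : ℕ) {x : V.Ix τ (2 * j) → ℚ_[ℓ]}
    (hx : x ∈ vecSpan ℚ_[ℓ] (hodgeSub (fun s => V.X (τ s)) j : Set (V.Ix τ (2 * j) → ℚ))) :
    P.map τ ℓ j x ∈
      vecSpan ℚ_[ℓ] (hodgeSub (fun s => V'.X (τ s)) j : Set (V'.Ix τ (2 * j) → ℚ)) := by
  rw [← isTate_iff] at hx ⊢
  exact map_tate P τ ℓ j hx

/-- The dimensions of the spaces of Hodge classes, one inequality. -/
theorem finrank_le (P : Conjugate V V') (ℓ : ℕ) [Fact ℓ.Prime] (j : ℕ) :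
    Module.finrank ℚ (hodgeSub (fun s => V.X (τ s)) j) ≤
      Module.finrank ℚ (hodgeSub (fun s => V'.X (τ s)) j) := by
  rw [← Run7.h869.HF.finrank_vecSpan (ℓ := ℓ), ← Run7.h869.HF.finrank_vecSpan (ℓ := ℓ)]
  have hinj : Function.Injective (P.mapL τ ℓ j) := by
    intro x y h
    have h1 : P.map τ ℓ j x = P.map τ ℓ j y := h
    rw [← map_inv P τ ℓ j x, h1, map_inv]
  let A := vecSpan ℚ_[ℓ] (hodgeSub (fun s => V.X (τ s)) j : Set (V.Ix τ (2 * j) → ℚ))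
  have h2 : A.map (P.mapL τ ℓ j) ≤
      vecSpan ℚ_[ℓ] (hodgeSub (fun s => V'.X (τ s)) j : Set (V'.Ix τ (2 * j) → ℚ)) := by
    rintro _ ⟨x, hx, rfl⟩
    exact map_span P τ ℓ j hx
  have h3 := Submodule.finrank_mono h2
  rw [← (Submodule.equivMapOfInjective (P.mapL τ ℓ j) hinj A).finrank_eq] at h3
  exact h3

theorem finrank_eq (P : Conjugate V V') (j : ℕ) :
    Module.finrank ℚ (hodgeSub (fun s => V.X (τ s)) j) =
      Module.finrank ℚ (hodgeSub (fun s => V'.X (τ s)) j) := by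
  have h2 : Fact (Nat.Prime 2) := ⟨Nat.prime_two⟩
  exact le_antisymm (finrank_le τ P 2 j) (finrank_le τ P.symm 2 j)

theorem hodgeDim_iff (V : Family F T) {S : Type} [Fintype S] [DecidableEq S] (τ : S → T)
    (j m : ℕ) : HodgeDim V τ j m ↔
      Module.finrank ℚ (hodgeSub (fun s => V.X (τ s)) j) = m := by
  constructor
  · rintro ⟨b, hb, h⟩
    have h1 : hodgeSub (fun s => V.X (τ s)) j = Submodule.span ℚ (Set.range b) := by
      ext v
      exact h v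
    rw [h1, finrank_span_eq_card hb, Fintype.card_fin]
  · rintro rfl
    let A := hodgeSub (fun s => V.X (τ s)) j
    let b := Module.finBasis ℚ A
    refine ⟨fun k => (b k : V.Ix τ (2 * j) → ℚ),
      b.linearIndependent.map' A.subtype (Submodule.ker_subtype A), fun v => ?_⟩
    have h1 : Submodule.span ℚ (Set.range fun k => (b k : V.Ix τ (2 * j) → ℚ)) = A := by
      have h2 := congrArg (Submodule.map A.subtype) b.span_eq
      rw [Submodule.map_span, Submodule.map_top, Submodule.range_subtype, ← Set.range_comp] at h2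
      exact h2
    rw [h1]
    rfl

/-- The main theorem. -/
theorem main_aut (V : Family F T) :
    (∀ (ℓ : ℕ) [Fact ℓ.Prime], ∃ Δ : Subgroup (GK F), Δ.FiniteIndex ∧
      ∀ (S : Type) [Fintype S] [DecidableEq S] (τ : S → T) (j : ℕ) (v : V.Ix τ (2 * j) → ℚ),
        Hodge V τ j v → ∀ γ ∈ Δ, V.galT τ ℓ j γ *ᵥ ladic ℓ v = ladic ℓ v) ∧
    ∀ (V' : Family F T) (P : Conjugate V V') (S : Type) [Fintype S] [DecidableEq S] (τ : S → T)
      (j : ℕ), (∀ m, HodgeDim V τ j m ↔ HodgeDim V' τ j m) ∧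
      ∀ (ℓ : ℕ) [Fact ℓ.Prime] (v : V.Ix τ (2 * j) → ℚ), Hodge V τ j v →
        InSpanOf ℓ (Hodge V' τ j) (P.map τ ℓ j (ladic ℓ v)) ∧
        ∀ v' : V'.Ix τ (2 * j) → ℚ, P.map τ ℓ j (ladic ℓ v) = ladic ℓ v' → Hodge V' τ j v' := by
  refine ⟨fun ℓ _ => ?_, fun V' P S _ _ τ j => ⟨fun m => ?_, fun ℓ _ v hv => ?_⟩⟩
  · obtain ⟨Δ, hΔ, h⟩ := uniform V ℓ
    refine ⟨Δ, hΔ, fun S _ _ τ j v hv γ hγ => h S τ j _ ?_ γ hγ⟩
    rw [isTate_iff]
    exact Submodule.subset_span ⟨v, hv, rfl⟩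
  · rw [hodgeDim_iff, hodgeDim_iff, finrank_eq τ P]
  · have h1 : P.map τ ℓ j (ladic ℓ v) ∈
        vecSpan ℚ_[ℓ] (hodgeSub (fun s => V'.X (τ s)) j : Set (V'.Ix τ (2 * j) → ℚ)) :=
      map_span P τ ℓ j (Submodule.subset_span ⟨v, hv, rfl⟩)
    constructor
    · exact h1
    · intro v' hv'
      rw [hv'] at h1
      exact mem_of_ladic _ v' h1

end

end Run7.h835.MT
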