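import Pool.Agent.Run7.h835.MT.Ten

/-!
# Project MT457, piece P5 (helper835): the monodromy group is contained in the Mumford-Tate group
-/

set_option autoImplicit false

namespace Run7.h835.MT

open Matrix Filter Topology
open Run7.h457.MT Run7.h615.MT Run7.h475.MT

section mt

variable {κ : Type} [Fintype κ] [DecidableEq κ]

theorem value_map {R R' : Type} [Field R] [Algebra ℚ R] [Field R'] [Algebra ℚ R'] (φ : R →+* R')
    (g : Matrix κ κ R) (f : MvPolynomial (κ × κ) ℚ) : value (g.map φ) f = φ (value g f) := by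
  unfold value
  rw [MvPolynomial.aeval_def, MvPolynomial.aeval_def, MvPolynomial.eval₂_comp_left]
  have : φ.comp (algebraMap ℚ R) = algebraMap ℚ R' := Subsingleton.elim _ _
  rw [this]
  rfl

variable {h : ℂ → Matrix κ κ ℂ}

theorem mt_one : (1 : Matrix κ κ ℂ) ∈ mumfordTate h := fun _ hG _ => hG.2.1

theorem mt_mul {m m' : Matrix κ κ ℂ} (hm : m ∈ mumfordTate h) (hm' : m' ∈ mumfordTate h) :
    m * m' ∈ mumfordTate h := fun G hG hh => hG.2.2.1 m (hm G hG hh) m' (hm' G hG hh)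

theorem mt_h {z : ℂ} (hz : z ≠ 0) : h z ∈ mumfordTate h := fun _ _ hh => hh z hz

theorem mt_aut (σ : ℂ ≃+* ℂ) {m : Matrix κ κ ℂ} (hm : m ∈ mumfordTate h) :
    m.map (σ : ℂ →+* ℂ) ∈ mumfordTate h := by
  intro G hG hh
  have h1 := hm G hG hh
  obtain ⟨P, hP⟩ := hG.1
  rw [hP] at h1 ⊢
  refine ⟨?_, fun f hf => ?_⟩
  · have h2 : (m.map (σ : ℂ →+* ℂ)).det = (σ : ℂ →+* ℂ) m.det :=
      (RingHom.map_det (σ : ℂ →+* ℂ) m).symm
    rw [h2]
    exact (map_ne_zero (σ : ℂ →+* ℂ)).2 h1.1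
  · have h2 := value_map (σ : ℂ →+* ℂ) m f
    rw [h1.2 f hf, map_zero] at h2
    exact h2

end mt

section spaces

variable {κ : Type} [Fintype κ] [DecidableEq κ] (h : ℂ → Matrix κ κ ℂ)
variable (S : Type) [Fintype S] [DecidableEq S]

/-- The index type. -/
abbrev KK (κ S : Type) : Type := (S → Option κ) × (S → Option κ)

/-- The complex functions which vanish on the Mumford-Tate group. -/
def CC : Submodule ℂ (KK κ S → ℂ) where
  carrier := {c | ∀ m ∈ mumfordTate h, pr c (T S m) = 0}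
  add_mem' {c d} hc hd m hm := by rw [pr_add, hc m hm, hd m hm, add_zero]
  zero_mem' m _ := by simp [pr]
  smul_mem' a c hc m hm := by rw [pr_smul, hc m hm, mul_zero]

/-- The rational functions which vanish on the Mumford-Tate group. -/
def JJ : Submodule ℚ (KK κ S → ℚ) where
  carrier := {c | ∀ m ∈ mumfordTate h, pr (fun q => algebraMap ℚ ℂ (c q)) (T S m) = 0}
  add_mem' {c d} hc hd m hm := by
    have e : (fun q => algebraMap ℚ ℂ ((c + d) q)) = (fun q => algebraMap ℚ ℂ (c q)) +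
        fun q => algebraMap ℚ ℂ (d q) := by
      funext q
      simp
    rw [e, pr_add, hc m hm, hd m hm, add_zero]
  zero_mem' m _ := by simp [pr]
  smul_mem' a c hc m hm := by
    have e : (fun q => algebraMap ℚ ℂ ((a • c) q)) = (algebraMap ℚ ℂ a) •
        fun q => algebraMap ℚ ℂ (c q) := by
      funext q
      simp
    rw [e, pr_smul, hc m hm, mul_zero]

variable {h S}

theorem mem_CC {c : KK κ S → ℂ} : c ∈ CC h S ↔ ∀ m ∈ mumfordTate h, pr c (T S m) = 0 := Iff.rfl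

theorem mem_JJ {c : KK κ S → ℚ} : c ∈ JJ h S ↔ (fun q => algebraMap ℚ ℂ (c q)) ∈ CC h S := Iff.rfl

theorem CC_aut (σ : ℂ ≃+* ℂ) {c : KK κ S → ℂ} (hc : c ∈ CC h S) :
    (fun q => σ (c q)) ∈ CC h S := by
  intro m hm
  have h1 := hc _ (mt_aut σ.symm hm)
  have h2 : T S m = (T S (m.map (σ.symm : ℂ →+* ℂ))).map (σ : ℂ →+* ℂ) := by
    rw [T_map]
    congr 1
    ext i j
    simp
  rw [h2]
  have h3 := pr_map (σ : ℂ →+* ℂ) c (T S (m.map (σ.symm : ℂ →+* ℂ)))
  rw [h1, map_zero] at h3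
  exact h3.symm

theorem CC_span {c : KK κ S → ℂ} (hc : c ∈ CC h S) :
    c ∈ vecSpan ℂ (JJ h S : Set (KK κ S → ℚ)) := by
  have h1 := Pool.Agent.W437.HD.span_rational (CC h S) fun σ v hv => CC_aut σ hv
  rw [h1] at hc
  refine Submodule.span_mono ?_ hc
  rintro w ⟨hw, u, rfl⟩
  refine ⟨u, ?_, ?_⟩
  · show u ∈ JJ h S
    rw [mem_JJ]
    exact hw
  · funext i
    exact eq_ratCast (algebraMap ℚ ℂ) (u i)

theorem CC_func {c : KK κ S → ℂ} (hc : c ∈ CC h S) (φ : ℂ →ₗ[ℚ] ℚ) :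
    (fun q => φ (c q)) ∈ JJ h S := (t_SPANV ℂ _ (JJ h S) c).1 (CC_span hc) φ

variable (h S)

/-- The rational matrices which preserve the ideal. -/
def BB : Submodule ℚ (Matrix κ κ ℚ) where
  carrier := {x | ∀ c ∈ JJ h S, act (dT S x) c ∈ JJ h S}
  add_mem' {x y} hx hy c hc := by
    rw [dT_add, act_add]
    exact (JJ h S).add_mem (hx c hc) (hy c hc)
  zero_mem' c _ := by
    rw [dT_zero]
    have : act (0 : Matrix (S → Option κ) (S → Option κ) ℚ) c = 0 := by
      funext q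
      rw [act_apply]
      simp
    rw [this]
    exact (JJ h S).zero_mem
  smul_mem' a x hx c hc := by
    rw [dT_smul, act_smul]
    exact (JJ h S).smul_mem a (hx c hc)

variable {h S}

theorem BB_lie : IsLie (BB h S) := by
  intro x hx y hy c hc
  rw [dT_lie, act_sub, act_mul, act_mul]
  exact (JJ h S).sub_mem (hx _ (hy c hc)) (hy _ (hx c hc))

/-- A complex matrix which preserves the complex ideal is in the span of `BB`. -/
theorem BB_of_CC {D : Matrix κ κ ℂ} (hD : ∀ c ∈ CC h S, act (dT S D) c ∈ CC h S) :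
    D ∈ ratSpan ℂ (BB h S : Set (Matrix κ κ ℚ)) := by
  rw [t_SPAN]
  intro φ c hc
  have h1 := CC_func (hD _ (mem_JJ.1 hc)) φ
  have h2 : act (dT S (D.map φ)) c = fun q => φ (act (dT S D) (fun q => algebraMap ℚ ℂ (c q)) q) := by
    funext q
    rw [act_apply, act_apply, map_sum]
    refine Finset.sum_congr rfl fun w _ => ?_
    have h3 : dT S (D.map φ) = (dT S D).map φ := (dT_map S φ.toAddMonoidHom D).symm
    rw [h3, Matrix.map_apply, mul_comm (dT S D q.2 w), ← Algebra.smul_def, map_smul, smul_eq_mul,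
      mul_comm]
  rw [h2]
  exact h1

end spaces

section lim

/-- A sequence of real numbers with limit zero. -/
noncomputable def tn (n : ℕ) : ℂ := 1 / ((n : ℂ) + 1)

theorem tn_ne (n : ℕ) : tn n ≠ 0 := by
  unfold tn
  exact one_div_ne_zero (Nat.cast_add_one_ne_zero n)

theorem tn_lim : Tendsto tn atTop (𝓝 0) := tendsto_one_div_add_atTop_nhds_zero_nat (𝕜 := ℂ)

theorem conj_tn (n : ℕ) : starRingEnd ℂ (tn n) = tn n := by
  unfold tn
  simp

theorem exp_lim (μ : ℂ) : Tendsto (fun n => (tn n)⁻¹ * (Complex.exp (-(μ * tn n)) - 1)) atTop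
    (𝓝 (-μ)) := by
  have h1 : HasDerivAt (fun t : ℂ => Complex.exp (-(μ * t))) (-μ) 0 := by
    have h2 := (((hasDerivAt_id (0 : ℂ)).const_mul μ).neg).cexp
    simpa using h2
  have h3 := h1.tendsto_slope_zero
  have h4 : Tendsto tn atTop (𝓝[≠] 0) :=
    tendsto_nhdsWithin_iff.2 ⟨tn_lim, Eventually.of_forall fun n => tn_ne n⟩
  have h5 := h3.comp h4
  refine h5.congr fun n => ?_
  simp

variable {κ : Type} [Fintype κ] [DecidableEq κ] {h : ℂ → Matrix κ κ ℂ}
  {C : Type} [Fintype C] [DecidableEq C] {a b : C → ℤ} {e : C → Matrix κ κ ℂ}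

/-- The derivative in the direction `θ`. -/
noncomputable def Dt (a b : C → ℤ) (e : C → Matrix κ κ ℂ) (θ : ℂ) : Matrix κ κ ℂ :=
  ∑ c, ((a c : ℂ) * θ + (b c : ℂ) * starRingEnd ℂ θ) • e c

theorem h_exp (hh : ∀ z : ℂ, z ≠ 0 → h z = ∑ c, (z ^ (-a c) * starRingEnd ℂ z ^ (-b c)) • e c)
    (θ : ℂ) (n : ℕ) : h (Complex.exp (θ * tn n))
      = ∑ c, Complex.exp (-(((a c : ℂ) * θ + (b c : ℂ) * starRingEnd ℂ θ) * tn n)) • e c := by
  rw [hh _ (Complex.exp_ne_zero _)]
  refine Finset.sum_congr rfl fun c _ => ?_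
  congr 1
  rw [← Complex.exp_conj, map_mul, conj_tn, ← Complex.exp_int_mul, ← Complex.exp_int_mul,
    ← Complex.exp_add]
  congr 1
  push_cast
  ring

theorem h_lim (hh : ∀ z : ℂ, z ≠ 0 → h z = ∑ c, (z ^ (-a c) * starRingEnd ℂ z ^ (-b c)) • e c)
    (he : ∑ c, e c = 1) (θ : ℂ) :
    Tendsto (fun n => (tn n)⁻¹ • (h (Complex.exp (θ * tn n)) - 1)) atTop (𝓝 (-Dt a b e θ)) := by
  have h1 : ∀ n, (tn n)⁻¹ • (h (Complex.exp (θ * tn n)) - 1)
      = ∑ c, ((tn n)⁻¹ * (Complex.exp (-(((a c : ℂ) * θ + (b c : ℂ) * starRingEnd ℂ θ) * tn n)) - 1))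
        • e c := by
    intro n
    rw [h_exp hh, ← he, ← Finset.sum_sub_distrib, Finset.smul_sum]
    refine Finset.sum_congr rfl fun c _ => ?_
    rw [mul_smul, sub_smul, one_smul]
  simp only [h1]
  have h2 : -Dt a b e θ = ∑ c, (-((a c : ℂ) * θ + (b c : ℂ) * starRingEnd ℂ θ)) • e c := by
    unfold Dt
    rw [← Finset.sum_neg_distrib]
    exact Finset.sum_congr rfl fun c _ => (neg_smul _ _).symm
  rw [h2]
  exact tendsto_finset_sum _ fun c _ => (exp_lim _).smul_const (e c)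

theorem stab (hh : ∀ z : ℂ, z ≠ 0 → h z = ∑ c, (z ^ (-a c) * starRingEnd ℂ z ^ (-b c)) • e c)
    (he : ∑ c, e c = 1) (θ : ℂ) (S : Type) [Fintype S] [DecidableEq S] {c : KK κ S → ℂ}
    (hc : c ∈ CC h S) : act (dT S (Dt a b e θ)) c ∈ CC h S := by
  intro m hm
  rw [pr_act]
  set X : ℕ → Matrix (S → Option κ) (S → Option κ) ℂ := fun n =>
    (tn n)⁻¹ • (T S (h (Complex.exp (θ * tn n))) - 1) with hX
  have h1 : Tendsto X atTop (𝓝 (dT S (-Dt a b e θ))) := by
    refine tendsto_pi_nhds.2 fun u => tendsto_pi_nhds.2 fun v => ?_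
    exact limT S tn_ne tn_lim (h_lim hh he θ) u v
  have h2 : Continuous fun Y : Matrix (S → Option κ) (S → Option κ) ℂ => pr c (T S m * Y) := by
    unfold pr
    refine continuous_finset_sum _ fun q _ => continuous_const.mul ?_
    exact (continuous_const.matrix_mul continuous_id).matrix_elem q.1 q.2
  have h3 := (h2.tendsto _).comp h1
  have h4 : ∀ n, pr c (T S m * X n) = 0 := by
    intro n
    rw [hX]
    simp only
    rw [mul_smul_comm, pr_smul', mul_sub, mul_one, pr_sub', ← T_mul,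
      hc _ (mt_mul hm (mt_h (Complex.exp_ne_zero _))), hc m hm, sub_zero, mul_zero]
  have h5 : Tendsto (fun _ : ℕ => (0 : ℂ)) atTop (𝓝 (pr c (T S m * dT S (-Dt a b e θ)))) := by
    refine h3.congr fun n => ?_
    exact h4 n
  have h6 := tendsto_nhds_unique h5 tendsto_const_nhds
  rw [dT_neg, mul_neg, ← neg_one_smul ℂ, pr_smul', neg_one_mul, neg_eq_zero] at h6
  exact h6

theorem stab_D (hh : ∀ z : ℂ, z ≠ 0 → h z = ∑ c, (z ^ (-a c) * starRingEnd ℂ z ^ (-b c)) • e c)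
    (he : ∑ c, e c = 1) (S : Type) [Fintype S] [DecidableEq S] {c : KK κ S → ℂ}
    (hc : c ∈ CC h S) : act (dT S (∑ c, (a c : ℂ) • e c)) c ∈ CC h S ∧
      act (dT S (∑ c, (b c : ℂ) • e c)) c ∈ CC h S := by
  have h1 := stab hh he 1 S hc
  have h2 := stab hh he Complex.I S hc
  have e1 : Dt a b e 1 = ∑ c, (a c : ℂ) • e c + ∑ c, (b c : ℂ) • e c := by
    unfold Dt
    rw [← Finset.sum_add_distrib]
    refine Finset.sum_congr rfl fun c _ => ?_
    rw [map_one, mul_one, mul_one, add_smul]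
  have e2 : Dt a b e Complex.I = Complex.I • (∑ c, (a c : ℂ) • e c - ∑ c, (b c : ℂ) • e c) := by
    unfold Dt
    rw [← Finset.sum_sub_distrib, Finset.smul_sum]
    refine Finset.sum_congr rfl fun c _ => ?_
    rw [Complex.conj_I, ← sub_smul, smul_smul]
    congr 1
    ring
  rw [e1, dT_add, act_add] at h1
  rw [e2, dT_smul, act_smul, dT_sub, act_sub] at h2
  set x := act (dT S (∑ c, (a c : ℂ) • e c)) c
  set y := act (dT S (∑ c, (b c : ℂ) • e c)) c
  have h3 : x - y ∈ CC h S := by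
    have := (CC h S).smul_mem (-Complex.I) h2
    rwa [smul_smul, neg_mul, Complex.I_mul_I, neg_neg, one_smul] at this
  constructor
  · have e3 : x = (1 / 2 : ℂ) • ((x + y) + (x - y)) := by module
    rw [e3]
    exact (CC h S).smul_mem _ ((CC h S).add_mem h1 h3)
  · have e3 : y = (1 / 2 : ℂ) • ((x + y) - (x - y)) := by module
    rw [e3]
    exact (CC h S).smul_mem _ ((CC h S).sub_mem h1 h3)

theorem mtLie_le (hh : ∀ z : ℂ, z ≠ 0 → h z = ∑ c, (z ^ (-a c) * starRingEnd ℂ z ^ (-b c)) • e c)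
    (he : ∑ c, e c = 1) (S : Type) [Fintype S] [DecidableEq S] :
    mtLie (∑ c, (a c : ℂ) • e c) (∑ c, (b c : ℂ) • e c) ≤ BB h S :=
  sInf_le ⟨BB_lie, BB_of_CC fun _ hc => (stab_D hh he S hc).1,
    BB_of_CC fun _ hc => (stab_D hh he S hc).2⟩

end lim

section padic

variable {κ : Type} [Fintype κ] [DecidableEq κ] {h : ℂ → Matrix κ κ ℂ} {ℓ : ℕ} [Fact ℓ.Prime]
  {S : Type} [Fintype S] [DecidableEq S]

theorem stab_p {L : Matrix κ κ ℚ_[ℓ]} (hL : L ∈ ratSpan ℚ_[ℓ] (BB h S : Set (Matrix κ κ ℚ)))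
    {x : KK κ S → ℚ_[ℓ]} (hx : x ∈ vecSpan ℚ_[ℓ] (JJ h S : Set (KK κ S → ℚ))) :
    act (dT S L) x ∈ vecSpan ℚ_[ℓ] (JJ h S : Set (KK κ S → ℚ)) := by
  unfold ratSpan at hL
  induction hL using Submodule.span_induction with
  | mem L hL =>
    obtain ⟨y, hy, rfl⟩ := hL
    unfold vecSpan at hx
    induction hx using Submodule.span_induction with
    | mem x hx =>
      obtain ⟨c, hc, rfl⟩ := hx
      refine Submodule.subset_span ⟨act (dT S y) c, hy c hc, ?_⟩
      funext q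
      simp only
      rw [act_apply, act_apply, map_sum]
      refine Finset.sum_congr rfl fun w _ => ?_
      have h3 : dT S (y.map (algebraMap ℚ ℚ_[ℓ])) = (dT S y).map (algebraMap ℚ ℚ_[ℓ]) :=
        (dT_map S (algebraMap ℚ ℚ_[ℓ]).toAddMonoidHom y).symm
      rw [h3, Matrix.map_apply, map_mul]
    | zero =>
      unfold act
      rw [mulVec_zero]
      exact Submodule.zero_mem _
    | add x x' _ _ hx hx' =>
      rw [act_add']
      exact Submodule.add_mem _ hx hx'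
    | smul c x _ hx =>
      rw [act_smul']
      exact Submodule.smul_mem _ _ hx
  | zero =>
    rw [dT_zero]
    have : act (0 : Matrix (S → Option κ) (S → Option κ) ℚ_[ℓ]) x = 0 := by
      funext q
      rw [act_apply]
      simp
    rw [this]
    exact Submodule.zero_mem _
  | add L L' _ _ hL hL' =>
    rw [dT_add, act_add]
    exact Submodule.add_mem _ hL hL'
  | smul c L _ hL =>
    rw [dT_smul, act_smul]
    exact Submodule.smul_mem _ _ hL

theorem pr_one_p {x : KK κ S → ℚ_[ℓ]} (hx : x ∈ vecSpan ℚ_[ℓ] (JJ h S : Set (KK κ S → ℚ))) :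
    pr x 1 = 0 := by
  unfold vecSpan at hx
  induction hx using Submodule.span_induction with
  | mem x hx =>
    obtain ⟨c, hc, rfl⟩ := hx
    have h1 := hc 1 mt_one
    rw [T_one] at h1
    have e1 : ∀ (F : Type) [Field F] [Algebra ℚ F],
        pr (fun q => algebraMap ℚ F (c q)) (1 : Matrix (S → Option κ) (S → Option κ) F)
          = algebraMap ℚ F (pr c 1) := by
      intro F _ _
      rw [pr_map (algebraMap ℚ F) c 1]
      congr 1
      exact (Matrix.map_one _ (map_zero _) (map_one _)).symm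
    rw [e1 ℂ] at h1
    have h2 : pr c 1 = 0 := (map_eq_zero (algebraMap ℚ ℂ)).1 h1
    simp only
    rw [e1 ℚ_[ℓ], h2, map_zero]
  | zero => simp [pr]
  | add x x' _ _ hx hx' => rw [pr_add, hx, hx', add_zero]
  | smul c x _ hx => rw [pr_smul, hx, mul_zero]

end padic

/-- **P5.** -/
theorem t_GSUB (ℓ : ℕ) [Fact ℓ.Prime] (κ : Type) [Fintype κ] [DecidableEq κ] (Γ : Type)
    [Group Γ] (ρ : Γ →* Matrix κ κ ℚ_[ℓ]) (h : ℂ → Matrix κ κ ℂ) (C : Type) [Fintype C]
    [DecidableEq C] (a b : C → ℤ) (e : C → Matrix κ κ ℂ) (he : ∑ c, e c = 1)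
    (hh : ∀ z : ℂ, z ≠ 0 → h z = ∑ c, (z ^ (-a c) * starRingEnd ℂ z ^ (-b c)) • e c)
    (hnear : ∀ N : ℕ, ∃ Δ : Subgroup Γ, Δ.FiniteIndex ∧ ∀ s ∈ Δ, NearOne N (ρ s))
    (hlie : ∀ L ∈ galLie ρ, L ∈ ratSpan ℚ_[ℓ]
      (mtLie (∑ c, (a c : ℂ) • e c) (∑ c, (b c : ℂ) • e c) : Set (Matrix κ κ ℚ)))
    (g : Matrix κ κ (AlgebraicClosure ℚ_[ℓ])) (hmon : InMonodromy ρ g) : InMumfordTate h g := by
  intro f hf
  obtain ⟨S, _, _, c, hc⟩ := exists_rep f
  have hcJ : c ∈ JJ h S := by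
    intro m hm
    have h1 := hc ℂ m
    rw [hf m hm] at h1
    exact h1.symm
  obtain ⟨Δ, hΔ, hn⟩ := hnear 2
  have key : ∀ s ∈ Δ, value (ρ s) f = 0 := by
    intro s hs
    obtain ⟨L, hL⟩ := t_LOGEX ℓ κ (ρ s) (hn s hs)
    have h1 : L ∈ galLie ρ := Submodule.subset_span ⟨s, hL⟩
    have h2 := hlie L h1
    have h3 : L ∈ ratSpan ℚ_[ℓ] (BB h S : Set (Matrix κ κ ℚ)) := by
      refine Submodule.span_mono ?_ h2
      exact Set.image_mono (mtLie_le hh he S)
    have h4 := t_LOGSTAB ℓ (KK κ S) (ten (T S (ρ s))) (ten (dT S L))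
      (near_ten (near_T S (hn s hs))) (log_ten (log_T S hL))
      (vecSpan ℚ_[ℓ] (JJ h S : Set (KK κ S → ℚ))) (fun x hx => stab_p h3 hx)
      (fun q => algebraMap ℚ ℚ_[ℓ] (c q)) (Submodule.subset_span ⟨c, hcJ, rfl⟩)
    have h5 := pr_one_p h4
    have h6 : pr (act (T S (ρ s)) fun q => algebraMap ℚ ℚ_[ℓ] (c q)) 1 = 0 := h5
    rw [pr_act, one_mul] at h6
    rw [hc ℚ_[ℓ] (ρ s)]
    exact h6
  have h1 := hmon (MvPolynomial.map (algebraMap ℚ (AlgebraicClosure ℚ_[ℓ])) f)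
    ⟨Δ, hΔ, fun s hs => by
      rw [MvPolynomial.aeval_map_algebraMap]
      have h2 := value_map (algebraMap ℚ_[ℓ] (AlgebraicClosure ℚ_[ℓ])) (ρ s) f
      rw [key s hs, map_zero] at h2
      exact h2⟩
  rw [MvPolynomial.aeval_map_algebraMap] at h1
  exact h1

end Run7.h835.MT
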