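import Pool.Agent.Run7.h615.MT.Kron
import Pool.Agent.Run7.h475.MT.Log
import Pool.Agent.Run7.h475.MT.Rat
import Pool.Agent.W437.HD.Fixed

/-!
# Project MT457, piece P5 (helper835): tensor powers of `1 ⊕ g`
-/

set_option autoImplicit false

namespace Run7.h835.MT

open Matrix Filter Topology
open Run7.h457.MT Run7.h615.MT Run7.h475.MT

section aug

variable {κ : Type} [Fintype κ] [DecidableEq κ] {F : Type} [Field F]

/-- `c ⊕ g`. -/
def aug (c : F) (g : Matrix κ κ F) : Matrix (Option κ) (Option κ) F := fun x y =>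
  match x, y with
  | none, none => c
  | some i, some j => g i j
  | none, some _ => 0
  | some _, none => 0

@[simp] theorem aug_nn (c : F) (g : Matrix κ κ F) : aug c g none none = c := rfl
@[simp] theorem aug_ss (c : F) (g : Matrix κ κ F) (i j : κ) : aug c g (some i) (some j) = g i j := rfl
@[simp] theorem aug_ns (c : F) (g : Matrix κ κ F) (j : κ) : aug c g none (some j) = 0 := rfl
@[simp] theorem aug_sn (c : F) (g : Matrix κ κ F) (i : κ) : aug c g (some i) none = 0 := rfl

theorem aug_mul (c c' : F) (g g' : Matrix κ κ F) : aug c g * aug c' g' = aug (c * c') (g * g') := by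
  ext x y
  rw [Matrix.mul_apply, Fintype.sum_option]
  rcases x with _ | i <;> rcases y with _ | j <;> simp [Matrix.mul_apply]

theorem aug_one : aug (1 : F) (1 : Matrix κ κ F) = 1 := by
  ext x y
  rcases x with _ | i <;> rcases y with _ | j <;> simp [Matrix.one_apply]

theorem aug_sub (c c' : F) (g g' : Matrix κ κ F) : aug c g - aug c' g' = aug (c - c') (g - g') := by
  ext x y
  rcases x with _ | i <;> rcases y with _ | j <;> simp

theorem aug_add (c c' : F) (g g' : Matrix κ κ F) : aug c g + aug c' g' = aug (c + c') (g + g') := by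
  ext x y
  rcases x with _ | i <;> rcases y with _ | j <;> simp

theorem aug_smul (a c : F) (g : Matrix κ κ F) : a • aug c g = aug (a * c) (a • g) := by
  ext x y
  rcases x with _ | i <;> rcases y with _ | j <;> simp

theorem aug_pow (g : Matrix κ κ F) (n : ℕ) : aug 1 g ^ n = aug 1 (g ^ n) := by
  induction n with
  | zero => rw [pow_zero, pow_zero, aug_one]
  | succ n ih => rw [pow_succ, pow_succ, ih, aug_mul, mul_one]

theorem aug_map {F' : Type} [Field F'] (φ : F → F') (h0 : φ 0 = 0) (c : F) (g : Matrix κ κ F) :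
    (aug c g).map φ = aug (φ c) (g.map φ) := by
  ext x y
  rcases x with _ | i <;> rcases y with _ | j <;> simp [h0]

end aug

section ten

variable {κ : Type} [Fintype κ] [DecidableEq κ] {F : Type} [Field F]
variable (S : Type) [Fintype S] [DecidableEq S]

/-- The tensor power of `1 ⊕ g`. -/
def T (g : Matrix κ κ F) : Matrix (S → Option κ) (S → Option κ) F :=
  kron (S := S) (I := fun _ => Option κ) fun _ => aug 1 g

/-- The derivative of `T` at `1`. -/
def dT (x : Matrix κ κ F) : Matrix (S → Option κ) (S → Option κ) F :=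
  dkron (S := S) (I := fun _ => Option κ) fun _ => aug 0 x

theorem T_apply (g : Matrix κ κ F) (u v : S → Option κ) :
    T S g u v = ∏ s, aug 1 g (u s) (v s) := rfl

theorem T_mul (g g' : Matrix κ κ F) : T S (g * g') = T S g * T S g' := by
  unfold T
  rw [kron_mul]
  simp only [aug_mul, mul_one]

theorem T_one : T S (1 : Matrix κ κ F) = 1 := by
  unfold T
  simp only [aug_one]
  exact kron_one

theorem T_map {F' : Type} [Field F'] (φ : F →+* F') (g : Matrix κ κ F) :
    (T S g).map φ = T S (g.map φ) := by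
  ext u v
  rw [Matrix.map_apply, T_apply, T_apply, map_prod]
  refine Finset.prod_congr rfl fun s _ => ?_
  have := congrFun (congrFun (aug_map φ (map_zero φ) 1 g) (u s)) (v s)
  rw [map_one] at this
  exact this

theorem dT_apply (x : Matrix κ κ F) (u v : S → Option κ) :
    dT S x u v = ∑ s, aug 0 x (u s) (v s) *
      ∏ k ∈ Finset.univ.erase s, (1 : Matrix (Option κ) (Option κ) F) (u k) (v k) :=
  dkron_apply _ u v

theorem dT_add (x y : Matrix κ κ F) : dT S (x + y) = dT S x + dT S y := by
  ext u v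
  rw [Matrix.add_apply, dT_apply, dT_apply, dT_apply, ← Finset.sum_add_distrib]
  refine Finset.sum_congr rfl fun s _ => ?_
  have : aug 0 (x + y) (u s) (v s) = aug 0 x (u s) (v s) + aug 0 y (u s) (v s) := by
    have := congrFun (congrFun (aug_add 0 0 x y) (u s)) (v s)
    rw [add_zero] at this
    exact this.symm
  rw [this]
  ring

theorem dT_smul (c : F) (x : Matrix κ κ F) : dT S (c • x) = c • dT S x := by
  ext u v
  rw [Matrix.smul_apply, dT_apply, dT_apply, smul_eq_mul, Finset.mul_sum]
  refine Finset.sum_congr rfl fun s _ => ?_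
  have : aug 0 (c • x) (u s) (v s) = c * aug 0 x (u s) (v s) := by
    have := congrFun (congrFun (aug_smul c 0 x) (u s)) (v s)
    rw [mul_zero] at this
    exact this.symm
  rw [this]
  ring

theorem dT_zero : dT S (0 : Matrix κ κ F) = 0 := by
  have := dT_smul S (0 : F) (0 : Matrix κ κ F)
  rwa [zero_smul, zero_smul] at this

theorem dT_neg (x : Matrix κ κ F) : dT S (-x) = -dT S x := by
  have := dT_smul S (-1 : F) x
  rwa [neg_one_smul, neg_one_smul] at this

theorem dT_sub (x y : Matrix κ κ F) : dT S (x - y) = dT S x - dT S y := by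
  rw [sub_eq_add_neg, dT_add, dT_neg, ← sub_eq_add_neg]

theorem dT_lie (x y : Matrix κ κ F) : dT S (x * y - y * x) = dT S x * dT S y - dT S y * dT S x := by
  unfold dT
  rw [← klie]
  congr 1
  funext _
  rw [aug_mul, aug_mul, aug_sub, mul_zero, sub_zero]

theorem dT_map {F' : Type} [Field F'] (φ : F →+ F') (x : Matrix κ κ F) :
    (dT S x).map φ = dT S (x.map φ) := by
  ext u v
  rw [Matrix.map_apply, dT_apply, dT_apply, map_sum]
  refine Finset.sum_congr rfl fun s _ => ?_
  have h1 : aug 0 (x.map φ) (u s) (v s) = φ (aug 0 x (u s) (v s)) := by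
    have := congrFun (congrFun (aug_map φ (map_zero φ) 0 x) (u s)) (v s)
    rw [map_zero] at this
    exact this.symm
  rw [h1]
  simp only [Matrix.one_apply, Finset.prod_ite_zero, Finset.prod_const_one]
  split_ifs
  · rw [mul_one, mul_one]
  · rw [mul_zero, mul_zero, map_zero]

theorem limT [TopologicalSpace F] [IsTopologicalRing F] {t : ℕ → F} (ht0 : ∀ n, t n ≠ 0)
    (ht : Tendsto t atTop (𝓝 0)) {M : ℕ → Matrix κ κ F} {L : Matrix κ κ F}
    (h : Tendsto (fun n => (t n)⁻¹ • (M n - 1)) atTop (𝓝 L)) (u v : S → Option κ) :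
    Tendsto (fun n => (t n)⁻¹ * (T S (M n) u v - (1 : Matrix _ _ F) u v)) atTop
      (𝓝 (dT S L u v)) := by
  have h1 := prodlim Finset.univ (t := t) ht0 ht (fun s n => aug 1 (M n) (u s) (v s))
    (fun s => (1 : Matrix (Option κ) (Option κ) F) (u s) (v s))
    (fun s => aug 0 L (u s) (v s)) (fun s _ => by
      have h2 : ∀ n, (t n)⁻¹ * (aug 1 (M n) (u s) (v s) -
          (1 : Matrix (Option κ) (Option κ) F) (u s) (v s))
          = aug 0 ((t n)⁻¹ • (M n - 1)) (u s) (v s) := by
        intro n
        have e1 : aug 1 (M n) - aug 1 1 = aug 0 (M n - 1) := by rw [aug_sub, sub_self]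
        have e2 : (t n)⁻¹ • aug 0 (M n - 1) = aug 0 ((t n)⁻¹ • (M n - 1)) := by
          rw [aug_smul, mul_zero]
        rw [← e2, ← e1, aug_one]
        rfl
      simp only [h2]
      rcases u s with _ | i <;> rcases v s with _ | j
      · exact tendsto_const_nhds
      · exact tendsto_const_nhds
      · exact tendsto_const_nhds
      · exact (tendsto_pi_nhds.1 ((tendsto_pi_nhds.1 h) i)) j)
  rw [dT_apply]
  refine h1.congr fun n => ?_
  rw [T_apply, ← kron_one (S := S) (I := fun _ => Option κ)]
  rfl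

/-! ### Representation of polynomials -/

theorem T_sum {S' : Type} [Fintype S'] [DecidableEq S'] (g : Matrix κ κ F) (u v : S → Option κ)
    (u' v' : S' → Option κ) :
    T (S ⊕ S') g (Sum.elim u u') (Sum.elim v v') = T S g u v * T S' g u' v' := by
  rw [T_apply, Fintype.prod_sum_type]
  rfl

theorem T_none (g : Matrix κ κ F) : T S g (fun _ => none) (fun _ => none) = 1 := by
  rw [T_apply]
  exact Finset.prod_eq_one fun s _ => rfl

end ten

section rep

variable {κ : Type} [Fintype κ] [DecidableEq κ]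

/-- `f(g)` is a combination of the entries of `T g`. -/
def RepF (S : Type) [Fintype S] [DecidableEq S] (f : MvPolynomial (κ × κ) ℚ) : Prop :=
  ∃ (J : Type) (_ : Fintype J) (a : J → ℚ) (u v : J → S → Option κ),
    ∀ (R : Type) [Field R] [Algebra ℚ R] (g : Matrix κ κ R),
      value g f = ∑ j, algebraMap ℚ R (a j) * T S g (u j) (v j)

theorem exists_repF (f : MvPolynomial (κ × κ) ℚ) :
    ∃ (S : Type) (_ : Fintype S) (_ : DecidableEq S), RepF S f := by
  induction f using MvPolynomial.induction_on with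
  | C a =>
      refine ⟨Empty, inferInstance, inferInstance, Unit, inferInstance, fun _ => a,
        fun _ => Empty.elim, fun _ => Empty.elim, fun R _ _ g => ?_⟩
      rw [value, MvPolynomial.aeval_C]
      simp [T_apply]
  | add p q hp hq =>
      obtain ⟨S, _, _, J, _, a, u, v, h⟩ := hp
      obtain ⟨S', _, _, J', _, a', u', v', h'⟩ := hq
      refine ⟨S ⊕ S', inferInstance, inferInstance, J ⊕ J', inferInstance, Sum.elim a a',
        Sum.elim (fun j => Sum.elim (u j) fun _ => none) (fun j => Sum.elim (fun _ => none) (u' j)),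
        Sum.elim (fun j => Sum.elim (v j) fun _ => none) (fun j => Sum.elim (fun _ => none) (v' j)),
        fun R _ _ g => ?_⟩
      rw [Fintype.sum_sum_type]
      simp only [Sum.elim_inl, Sum.elim_inr, T_sum, T_none, mul_one, one_mul]
      rw [← h R g, ← h' R g, value, value, value, map_add]
  | mul_X p n hp =>
      obtain ⟨S, _, _, J, _, a, u, v, h⟩ := hp
      refine ⟨S ⊕ Unit, inferInstance, inferInstance, J, inferInstance, a,
        fun j => Sum.elim (u j) fun _ => some n.1, fun j => Sum.elim (v j) fun _ => some n.2,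
        fun R _ _ g => ?_⟩
      have e : T Unit g (fun _ => some n.1) (fun _ => some n.2) = g n.1 n.2 := by
        rw [T_apply]
        simp
      simp only [T_sum, e]
      have h1 := h R g
      unfold value at h1 ⊢
      rw [map_mul, MvPolynomial.aeval_X, h1, Finset.sum_mul]
      exact Finset.sum_congr rfl fun j _ => by ring

/-- `f(g)` is the pairing of `c` and `T g`. -/
theorem exists_rep (f : MvPolynomial (κ × κ) ℚ) :
    ∃ (S : Type) (_ : Fintype S) (_ : DecidableEq S)
      (c : (S → Option κ) × (S → Option κ) → ℚ), ∀ (R : Type) [Field R] [Algebra ℚ R]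
      (g : Matrix κ κ R), value g f = ∑ q, algebraMap ℚ R (c q) * T S g q.1 q.2 := by
  obtain ⟨S, _, _, J, _, a, u, v, h⟩ := exists_repF f
  refine ⟨S, inferInstance, inferInstance,
    fun q => ∑ j, if (u j, v j) = q then a j else 0, fun R _ _ g => ?_⟩
  rw [h R g]
  simp only [map_sum, Finset.sum_mul]
  rw [Finset.sum_comm]
  refine Finset.sum_congr rfl fun j _ => ?_
  rw [Finset.sum_eq_single (u j, v j)]
  · rw [if_pos rfl]
  · intro q _ hq
    rw [if_neg (Ne.symm hq), map_zero, zero_mul]
  · intro h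
    exact absurd (Finset.mem_univ _) h

end rep

section pair

variable {K : Type} [Fintype K] [DecidableEq K] {F : Type} [Field F]

/-- The pairing. -/
def pr (c : K × K → F) (B : Matrix K K F) : F := ∑ q, c q * B q.1 q.2

/-- The operator `1 ⊗ B`. -/
def ten (B : Matrix K K F) : Matrix (K × K) (K × K) F := kroneckerMap (· * ·) 1 B

theorem ten_apply (B : Matrix K K F) (p q : K × K) :
    ten B p q = (1 : Matrix K K F) p.1 q.1 * B p.2 q.2 := rfl

/-- The operator `c ↦ c Bᵀ`. -/
def act (B : Matrix K K F) (c : K × K → F) : K × K → F := ten B *ᵥ c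

theorem act_apply (B : Matrix K K F) (c : K × K → F) (q : K × K) :
    act B c q = ∑ w, B q.2 w * c (q.1, w) := by
  show ∑ p, ten B q p * c p = _
  rw [Fintype.sum_prod_type, Finset.sum_eq_single q.1]
  · refine Finset.sum_congr rfl fun w _ => ?_
    rw [ten_apply, Matrix.one_apply_eq, one_mul]
  · intro w _ hw
    refine Finset.sum_eq_zero fun w' _ => ?_
    rw [ten_apply, Matrix.one_apply_ne (Ne.symm hw), zero_mul, zero_mul]
  · intro h
    exact absurd (Finset.mem_univ _) h

theorem pr_act (B A : Matrix K K F) (c : K × K → F) : pr (act B c) A = pr c (A * B) := by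
  unfold pr
  simp only [act_apply, Matrix.mul_apply, Fintype.sum_prod_type, Finset.sum_mul, Finset.mul_sum]
  refine Finset.sum_congr rfl fun u _ => ?_
  rw [Finset.sum_comm]
  refine Finset.sum_congr rfl fun v _ => Finset.sum_congr rfl fun w _ => ?_
  ring

theorem act_mul (A B : Matrix K K F) (c : K × K → F) : act (A * B) c = act A (act B c) := by
  unfold act
  rw [mulVec_mulVec]
  congr 1
  unfold ten
  have := (mul_kronecker_mul (1 : Matrix K K F) (1 : Matrix K K F) A B)
  rw [one_mul] at this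
  exact this

theorem ten_add (A B : Matrix K K F) : ten (A + B) = ten A + ten B := by
  ext p q
  rw [Matrix.add_apply, ten_apply, ten_apply, ten_apply, Matrix.add_apply, mul_add]

theorem ten_sub (A B : Matrix K K F) : ten (A - B) = ten A - ten B := by
  ext p q
  rw [Matrix.sub_apply, ten_apply, ten_apply, ten_apply, Matrix.sub_apply, mul_sub]

theorem ten_smul (a : F) (B : Matrix K K F) : ten (a • B) = a • ten B := by
  ext p q
  rw [Matrix.smul_apply, ten_apply, ten_apply, Matrix.smul_apply, smul_eq_mul, smul_eq_mul]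
  ring

theorem ten_one : ten (1 : Matrix K K F) = 1 := by
  ext p q
  simp only [ten_apply, Matrix.one_apply, Prod.ext_iff]
  split_ifs <;> simp_all

theorem ten_pow (B : Matrix K K F) (n : ℕ) : ten B ^ n = ten (B ^ n) := by
  induction n with
  | zero => rw [pow_zero, pow_zero, ten_one]
  | succ n ih =>
      rw [pow_succ, pow_succ, ih]
      unfold ten
      have := (mul_kronecker_mul (1 : Matrix K K F) (1 : Matrix K K F) (B ^ n) B)
      rw [one_mul] at this
      exact this.symm

theorem act_add (A B : Matrix K K F) (c : K × K → F) : act (A + B) c = act A c + act B c := by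
  unfold act
  rw [ten_add, add_mulVec]

theorem act_sub (A B : Matrix K K F) (c : K × K → F) : act (A - B) c = act A c - act B c := by
  unfold act
  rw [ten_sub, sub_mulVec]

theorem act_smul (a : F) (B : Matrix K K F) (c : K × K → F) : act (a • B) c = a • act B c := by
  unfold act
  rw [ten_smul, smul_mulVec]

theorem act_add' (A : Matrix K K F) (c d : K × K → F) : act A (c + d) = act A c + act A d := by
  unfold act
  rw [mulVec_add]

theorem act_smul' (a : F) (B : Matrix K K F) (c : K × K → F) : act B (a • c) = a • act B c := by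
  unfold act
  rw [mulVec_smul]

theorem pr_add (c d : K × K → F) (B : Matrix K K F) : pr (c + d) B = pr c B + pr d B := by
  unfold pr
  rw [← Finset.sum_add_distrib]
  exact Finset.sum_congr rfl fun q _ => by rw [Pi.add_apply, add_mul]

theorem pr_smul (a : F) (c : K × K → F) (B : Matrix K K F) : pr (a • c) B = a * pr c B := by
  unfold pr
  rw [Finset.mul_sum]
  exact Finset.sum_congr rfl fun q _ => by rw [Pi.smul_apply, smul_eq_mul, mul_assoc]

theorem pr_sub' (c : K × K → F) (A B : Matrix K K F) : pr c (A - B) = pr c A - pr c B := by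
  unfold pr
  rw [← Finset.sum_sub_distrib]
  exact Finset.sum_congr rfl fun q _ => by rw [Matrix.sub_apply, mul_sub]

theorem pr_smul' (a : F) (c : K × K → F) (B : Matrix K K F) : pr c (a • B) = a * pr c B := by
  unfold pr
  rw [Finset.mul_sum]
  exact Finset.sum_congr rfl fun q _ => by rw [Matrix.smul_apply, smul_eq_mul]; ring

theorem pr_map {F' : Type} [Field F'] (φ : F →+* F') (c : K × K → F) (B : Matrix K K F) :
    φ (pr c B) = pr (fun q => φ (c q)) (B.map φ) := by
  unfold pr
  rw [map_sum]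
  exact Finset.sum_congr rfl fun q _ => by rw [map_mul, Matrix.map_apply]

end pair

section padic

variable {κ : Type} [Fintype κ] [DecidableEq κ] {ℓ : ℕ} [Fact ℓ.Prime]

theorem norm_prod_sub_le {S : Type} [DecidableEq S] (s : Finset S) (a b : S → ℚ_[ℓ]) {ε : ℝ}
    (hε : 0 ≤ ε) (ha : ∀ i, ‖a i‖ ≤ 1) (hb : ∀ i, ‖b i‖ ≤ 1) (h : ∀ i, ‖a i - b i‖ ≤ ε) :
    ‖∏ i ∈ s, a i - ∏ i ∈ s, b i‖ ≤ ε := by
  induction s using Finset.induction_on with
  | empty => simpa using hε
  | insert i s hi ih =>
      rw [Finset.prod_insert hi, Finset.prod_insert hi]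
      have e : a i * ∏ j ∈ s, a j - b i * ∏ j ∈ s, b j
          = a i * (∏ j ∈ s, a j - ∏ j ∈ s, b j) + (a i - b i) * ∏ j ∈ s, b j := by ring
      rw [e]
      refine (Padic.nonarchimedean _ _).trans (max_le ?_ ?_)
      · rw [norm_mul]
        calc ‖a i‖ * _ ≤ 1 * ε := mul_le_mul (ha i) ih (norm_nonneg _) zero_le_one
          _ = ε := one_mul ε
      · rw [norm_mul, norm_prod]
        have h1 : ∏ j ∈ s, ‖b j‖ ≤ 1 := Finset.prod_le_one (fun j _ => norm_nonneg _)
          fun j _ => hb j
        calc ‖a i - b i‖ * _ ≤ ε * 1 := mul_le_mul (h i) h1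
              (Finset.prod_nonneg fun j _ => norm_nonneg _) hε
          _ = ε := mul_one ε

theorem near_aug {N : ℕ} {g : Matrix κ κ ℚ_[ℓ]} (hg : NearOne N g) : NearOne N (aug 1 g) := by
  intro x y
  have e : aug 1 g - 1 = aug 0 (g - 1) := by rw [← aug_one, aug_sub, sub_self]
  rw [e]
  have h0 : (0 : ℝ) ≤ ((ℓ : ℝ) ^ N)⁻¹ := by positivity
  rcases x with _ | i <;> rcases y with _ | j
  · rw [aug_nn, norm_zero]; exact h0
  · rw [aug_ns, norm_zero]; exact h0
  · rw [aug_sn, norm_zero]; exact h0
  · exact hg i j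

theorem near_le_one {N : ℕ} {K : Type} [Fintype K] [DecidableEq K] {g : Matrix K K ℚ_[ℓ]}
    (hg : NearOne N g) (i j : K) : ‖g i j‖ ≤ 1 := by
  have h1 := hg i j
  have h2 : ((ℓ : ℝ) ^ N)⁻¹ ≤ 1 := by
    apply inv_le_one_of_one_le₀
    exact one_le_pow₀ (by exact_mod_cast (Fact.out : ℓ.Prime).one_le)
  have e : g i j = (g - 1) i j + (1 : Matrix K K ℚ_[ℓ]) i j := by
    rw [Matrix.sub_apply, sub_add_cancel]
  rw [e]
  refine (Padic.nonarchimedean _ _).trans (max_le (h1.trans h2) ?_)
  rw [Matrix.one_apply]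
  split_ifs <;> simp

theorem near_T (S : Type) [Fintype S] [DecidableEq S] {N : ℕ} {g : Matrix κ κ ℚ_[ℓ]}
    (hg : NearOne N g) : NearOne N (T S g) := by
  intro u v
  rw [Matrix.sub_apply, ← T_one (κ := κ) S, T_apply, T_apply]
  have h1 := near_aug hg
  have h2 : NearOne N (aug (1 : ℚ_[ℓ]) (1 : Matrix κ κ ℚ_[ℓ])) := by
    rw [aug_one]
    intro i j
    rw [sub_self, Matrix.zero_apply, norm_zero]
    positivity
  refine norm_prod_sub_le _ _ _ (by positivity) (fun s => near_le_one h1 _ _)
    (fun s => near_le_one h2 _ _) fun s => ?_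
  have h3 := h1 (u s) (v s)
  rw [Matrix.sub_apply] at h3
  rw [aug_one]
  exact h3

theorem near_ten {K : Type} [Fintype K] [DecidableEq K] {N : ℕ} {g : Matrix K K ℚ_[ℓ]}
    (hg : NearOne N g) : NearOne N (ten g) := by
  intro p q
  rw [← ten_one, ← ten_sub, ten_apply, norm_mul]
  have h1 := hg p.2 q.2
  have h2 : ‖(1 : Matrix K K ℚ_[ℓ]) p.1 q.1‖ ≤ 1 := by
    rw [Matrix.one_apply]
    split_ifs <;> simp
  calc _ ≤ 1 * ((ℓ : ℝ) ^ N)⁻¹ := mul_le_mul h2 h1 (norm_nonneg _) zero_le_one
    _ = _ := one_mul _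

theorem log_T (S : Type) [Fintype S] [DecidableEq S] {g L : Matrix κ κ ℚ_[ℓ]} (h : IsLog g L) :
    IsLog (T S g) (dT S L) := by
  refine klog _ _ fun s => ?_
  refine tendsto_pi_nhds.2 fun x => tendsto_pi_nhds.2 fun y => ?_
  have h1 : ∀ n : ℕ, ((ℓ : ℚ_[ℓ]) ^ n)⁻¹ • (aug 1 g ^ ℓ ^ n - 1)
      = aug 0 (((ℓ : ℚ_[ℓ]) ^ n)⁻¹ • (g ^ ℓ ^ n - 1)) := by
    intro n
    rw [aug_pow, ← aug_one, aug_sub, aug_smul, sub_self, mul_zero]
  simp only [h1]
  rcases x with _ | i <;> rcases y with _ | j
  · exact tendsto_const_nhds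
  · exact tendsto_const_nhds
  · exact tendsto_const_nhds
  · exact (tendsto_pi_nhds.1 ((tendsto_pi_nhds.1 h) i)) j

theorem log_ten {K : Type} [Fintype K] [DecidableEq K] {g L : Matrix K K ℚ_[ℓ]} (h : IsLog g L) :
    IsLog (ten g) (ten L) := by
  refine tendsto_pi_nhds.2 fun p => tendsto_pi_nhds.2 fun q => ?_
  have h1 : ∀ n : ℕ, ((ℓ : ℚ_[ℓ]) ^ n)⁻¹ • (ten g ^ ℓ ^ n - 1)
      = ten (((ℓ : ℚ_[ℓ]) ^ n)⁻¹ • (g ^ ℓ ^ n - 1)) := by
    intro n
    rw [ten_pow, ← ten_one, ← ten_sub, ten_smul]
  simp only [h1]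
  exact tendsto_const_nhds.mul ((tendsto_pi_nhds.1 ((tendsto_pi_nhds.1 h) p.2)) q.2)

end padic

end Run7.h835.MT
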